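import Pool.Agent.Q294.Md.Base

/-! JOB A2 of the project of helper294: the exact formula. -/

set_option autoImplicit false

namespace Pool.Agent.Q146.Md

open Finset
open Pool.Agent.Q294.Md

noncomputable section

/-! ### Triple sums -/

lemma sum_assoc (F : ℕ → ℕ → ℕ → ℝ) (n : ℕ) :
    ∑ p ∈ HasAntidiagonal.antidiagonal n, ∑ r ∈ HasAntidiagonal.antidiagonal p.2, F p.1 r.1 r.2 =
      ∑ p ∈ HasAntidiagonal.antidiagonal n, ∑ r ∈ HasAntidiagonal.antidiagonal p.1, F r.1 r.2 p.2 := by
  rw [Finset.sum_sigma', Finset.sum_sigma']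
  refine Finset.sum_nbij' (fun x => ⟨(x.1.1 + x.2.1, x.2.2), (x.1.1, x.2.1)⟩)
    (fun x => ⟨(x.2.1, x.2.2 + x.1.2), (x.2.2, x.1.2)⟩) ?_ ?_ ?_ ?_ ?_
  · rintro ⟨⟨a, b⟩, ⟨c, d⟩⟩ h
    simp only [mem_sigma, HasAntidiagonal.mem_antidiagonal] at h ⊢
    obtain ⟨h1, h2⟩ := h
    constructor
    · change _ + _ = _
      omega
    · trivial
  · rintro ⟨⟨a, b⟩, ⟨c, d⟩⟩ h
    simp only [mem_sigma, HasAntidiagonal.mem_antidiagonal] at h ⊢
    obtain ⟨h1, h2⟩ := h
    constructor
    · change _ + _ = _
      omega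
    · trivial
  · rintro ⟨⟨a, b⟩, ⟨c, d⟩⟩ h
    simp only [mem_sigma, HasAntidiagonal.mem_antidiagonal] at h
    obtain ⟨h1, h2⟩ := h
    subst h2
    rfl
  · rintro ⟨⟨a, b⟩, ⟨c, d⟩⟩ h
    simp only [mem_sigma, HasAntidiagonal.mem_antidiagonal] at h
    obtain ⟨h1, h2⟩ := h
    subst h2
    rfl
  · rintro ⟨⟨a, b⟩, ⟨c, d⟩⟩ h
    rfl

lemma sum_comm3 (F : ℕ → ℕ → ℕ → ℝ) (n : ℕ) :
    ∑ p ∈ HasAntidiagonal.antidiagonal n, ∑ r ∈ HasAntidiagonal.antidiagonal p.2, F p.1 r.1 r.2 =
      ∑ p ∈ HasAntidiagonal.antidiagonal n, ∑ r ∈ HasAntidiagonal.antidiagonal p.2, F r.1 p.1 r.2 := by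
  rw [Finset.sum_sigma', Finset.sum_sigma']
  refine Finset.sum_nbij' (fun x => ⟨(x.2.1, x.1.1 + x.2.2), (x.1.1, x.2.2)⟩)
    (fun x => ⟨(x.2.1, x.1.1 + x.2.2), (x.1.1, x.2.2)⟩) ?_ ?_ ?_ ?_ ?_
  · rintro ⟨⟨a, b⟩, ⟨c, d⟩⟩ h
    simp only [mem_sigma, HasAntidiagonal.mem_antidiagonal] at h ⊢
    obtain ⟨h1, h2⟩ := h
    constructor
    · change _ + _ = _
      omega
    · trivial
  · rintro ⟨⟨a, b⟩, ⟨c, d⟩⟩ h
    simp only [mem_sigma, HasAntidiagonal.mem_antidiagonal] at h ⊢
    obtain ⟨h1, h2⟩ := h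
    constructor
    · change _ + _ = _
      omega
    · trivial
  · rintro ⟨⟨a, b⟩, ⟨c, d⟩⟩ h
    simp only [mem_sigma, HasAntidiagonal.mem_antidiagonal] at h
    obtain ⟨h1, h2⟩ := h
    subst h2
    rfl
  · rintro ⟨⟨a, b⟩, ⟨c, d⟩⟩ h
    simp only [mem_sigma, HasAntidiagonal.mem_antidiagonal] at h
    obtain ⟨h1, h2⟩ := h
    subst h2
    rfl
  · rintro ⟨⟨a, b⟩, ⟨c, d⟩⟩ h
    rfl

/-! ### Lagrange inversion -/

/-- the derivative identity -/
lemma mul_coeff_pow_succ (φ : PowerSeries ℝ) (N j : ℕ) :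
    (j : ℝ) * PowerSeries.coeff j (φ ^ (N + 1)) =
    (N + 1) * ∑ p ∈ HasAntidiagonal.antidiagonal j, ((p.1 : ℝ) * PowerSeries.coeff p.1 φ) *
      PowerSeries.coeff p.2 (φ ^ N) := by
  rcases j with _ | j
  · simp
  · have h1 : PowerSeries.coeff j (PowerSeries.derivative ℝ (φ ^ (N + 1))) =
        PowerSeries.coeff (j + 1) (φ ^ (N + 1)) * (j + 1) := by
      rw [PowerSeries.coeff_derivative]
    have h2 : PowerSeries.derivative ℝ (φ ^ (N + 1)) =
        PowerSeries.C (N + 1 : ℝ) * (PowerSeries.derivative ℝ φ * φ ^ N) := by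
      have h3 := (PowerSeries.derivative ℝ).leibniz_pow φ (N + 1)
      rw [h3]
      simp only [Nat.add_sub_cancel, smul_eq_mul, nsmul_eq_mul]
      have h5 : ((N + 1 : ℕ) : PowerSeries ℝ) = PowerSeries.C ((N : ℝ) + 1) := by
        rw [map_add, map_one]
        push_cast
        rfl
      rw [h5]
      ring
    rw [h2, PowerSeries.coeff_C_mul, PowerSeries.coeff_mul] at h1
    rw [Finset.Nat.antidiagonal_succ, Finset.sum_cons, Finset.sum_map]
    simp only [CharP.cast_eq_zero, zero_mul, zero_add, Function.Embedding.coe_prodMap,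
      Function.Embedding.coeFn_mk, Prod.map_fst, Prod.map_snd, Function.Embedding.refl_apply]
    push_cast
    have h6 : ∑ p ∈ HasAntidiagonal.antidiagonal j,
        PowerSeries.coeff p.1 (PowerSeries.derivative ℝ φ) * PowerSeries.coeff p.2 (φ ^ N) =
        ∑ p ∈ HasAntidiagonal.antidiagonal j, ((p.1 : ℝ) + 1) * PowerSeries.coeff (p.1 + 1) φ *
          PowerSeries.coeff p.2 (φ ^ N) := by
      refine Finset.sum_congr rfl fun p _ => ?_
      rw [PowerSeries.coeff_derivative]
      ring
    rw [h6] at h1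
    simp only [Nat.succ_eq_add_one]
    rw [mul_comm, ← h1]

/-- the numbers `a/(a+k) [x^k] φ^(a+k)` -/
def gg (φ : PowerSeries ℝ) (k a : ℕ) : ℝ :=
  if a = 0 then (if k = 0 then 1 else 0)
  else (a : ℝ) / ((a : ℝ) + k) * PowerSeries.coeff k (φ ^ (a + k))

lemma gg_zero_right (φ : PowerSeries ℝ) (k : ℕ) : gg φ k 0 = if k = 0 then 1 else 0 := by
  simp [gg]

lemma gg_mul (φ : PowerSeries ℝ) (k a N : ℕ) (hN : a + k = N) (h0 : N ≠ 0) :
    (N : ℝ) * gg φ k a = a * PowerSeries.coeff k (φ ^ N) := by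
  unfold gg
  have hN' : (a : ℝ) + k = N := by exact_mod_cast hN
  have h0' : (N : ℝ) ≠ 0 := by exact_mod_cast h0
  split_ifs with h1 h2
  · omega
  · subst h1; simp
  · rw [hN', hN]; field_simp

/-- the hitting time recursion -/
lemma gg_succ (φ : PowerSeries ℝ) (k a : ℕ) :
    gg φ k (a + 1) = ∑ p ∈ HasAntidiagonal.antidiagonal k, PowerSeries.coeff p.1 φ * gg φ p.2 (a + p.1) := by
  rcases Nat.eq_zero_or_pos (a + k) with h0 | h0
  · have ha : a = 0 := by omega
    have hk : k = 0 := by omega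
    subst ha hk
    simp [gg]
  · obtain ⟨N, hN⟩ : ∃ N, N = a + k := ⟨_, rfl⟩
    have hN0 : N ≠ 0 := by omega
    have hN0' : (N : ℝ) ≠ 0 := by exact_mod_cast hN0
    have hN1' : (N : ℝ) + 1 ≠ 0 := by positivity
    have h1 := gg_mul φ k (a + 1) (N + 1) (by omega) (by omega)
    have h2 : ∀ p ∈ HasAntidiagonal.antidiagonal k, (N : ℝ) * (PowerSeries.coeff p.1 φ * gg φ p.2 (a + p.1)) =
        a * (PowerSeries.coeff p.1 φ * PowerSeries.coeff p.2 (φ ^ N)) +
        (p.1 * PowerSeries.coeff p.1 φ) * PowerSeries.coeff p.2 (φ ^ N) := by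
      intro p hp
      rw [HasAntidiagonal.mem_antidiagonal] at hp
      have h3 := gg_mul φ p.2 (a + p.1) N (by omega) hN0
      calc (N : ℝ) * (PowerSeries.coeff p.1 φ * gg φ p.2 (a + p.1)) =
          PowerSeries.coeff p.1 φ * ((N : ℝ) * gg φ p.2 (a + p.1)) := by ring
        _ = _ := by rw [h3]; push_cast; ring
    have h4 : (N : ℝ) * ∑ p ∈ HasAntidiagonal.antidiagonal k, PowerSeries.coeff p.1 φ * gg φ p.2 (a + p.1) =
        a * PowerSeries.coeff k (φ ^ (N + 1)) +
          (k : ℝ) / (N + 1) * PowerSeries.coeff k (φ ^ (N + 1)) := by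
      have h5 := mul_coeff_pow_succ φ N k
      have h6 : PowerSeries.coeff k (φ ^ (N + 1)) = ∑ p ∈ HasAntidiagonal.antidiagonal k,
          PowerSeries.coeff p.1 φ * PowerSeries.coeff p.2 (φ ^ N) := by
        rw [pow_succ', PowerSeries.coeff_mul]
      rw [Finset.mul_sum, Finset.sum_congr rfl h2, Finset.sum_add_distrib, ← Finset.mul_sum,
        ← h6]
      congr 1
      field_simp
      linarith
    have h6 : (N : ℝ) * gg φ k (a + 1) = (N : ℝ) *
        ∑ p ∈ HasAntidiagonal.antidiagonal k, PowerSeries.coeff p.1 φ * gg φ p.2 (a + p.1) := by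
      rw [h4]
      have h7 : gg φ k (a + 1) = ((a : ℝ) + 1) / (N + 1) * PowerSeries.coeff k (φ ^ (N + 1)) := by
        push_cast at h1
        field_simp
        linarith
      rw [h7]
      have h8 : (N : ℝ) = a + k := by exact_mod_cast hN
      have h9 : (N : ℝ) * (a + 1) = a * (N + 1) + k := by rw [h8]; ring
      field_simp
      linear_combination (PowerSeries.coeff k (φ ^ (N + 1))) * h9
    exact mul_left_cancel₀ hN0' h6

/-- convolution -/
lemma gg_add (φ : PowerSeries ℝ) (c : ℕ) (n : ℕ) : ∀ (k a : ℕ), a + k ≤ n →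
    gg φ k (a + c) = ∑ p ∈ HasAntidiagonal.antidiagonal k, gg φ p.1 a * gg φ p.2 c := by
  induction n with
  | zero =>
    intro k a h
    have ha : a = 0 := by omega
    have hk : k = 0 := by omega
    subst ha hk
    simp [gg_zero_right]
  | succ n ih =>
    intro k a h
    rcases a with _ | a
    · have h1 : ∀ p ∈ HasAntidiagonal.antidiagonal k, gg φ p.1 0 * gg φ p.2 c =
          if p = (0, k) then gg φ k c else 0 := by
        rintro ⟨i, j⟩ hp
        rw [HasAntidiagonal.mem_antidiagonal] at hp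
        simp only [gg_zero_right, Prod.mk.injEq] at hp ⊢
        by_cases hi : i = 0
        · have hj : j = k := by omega
          simp [hi, hj]
        · simp [hi]
      rw [Finset.sum_congr rfl h1, Finset.sum_ite_eq', if_pos (by simp), zero_add]
    · have e1 : a + 1 + c = (a + c) + 1 := by omega
      rw [e1, gg_succ]
      have h1 : ∀ p ∈ HasAntidiagonal.antidiagonal k, PowerSeries.coeff p.1 φ * gg φ p.2 (a + c + p.1) =
          ∑ r ∈ HasAntidiagonal.antidiagonal p.2, PowerSeries.coeff p.1 φ * (gg φ r.1 (a + p.1) * gg φ r.2 c) := by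
        intro p hp
        rw [HasAntidiagonal.mem_antidiagonal] at hp
        rw [← Finset.mul_sum, ← ih p.2 (a + p.1) (by omega)]
        congr 2
        omega
      rw [Finset.sum_congr rfl h1,
        sum_assoc (fun u v w => PowerSeries.coeff u φ * (gg φ v (a + u) * gg φ w c)) k]
      refine Finset.sum_congr rfl fun p _ => ?_
      rw [gg_succ, Finset.sum_mul]
      refine Finset.sum_congr rfl fun r _ => ?_
      ring

/-! ### The recursion -/

/-- the series `1 + t x² Σ cat2(u) x^u` -/
def Φ (t : ℝ) : PowerSeries ℝ :=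
  PowerSeries.mk fun k => if k = 0 then 1 else if k = 1 then 0 else t * cat2 (k - 2)

lemma coeff_Φ_zero (t : ℝ) : PowerSeries.coeff 0 (Φ t) = 1 := by simp [Φ, PowerSeries.coeff_mk]

lemma coeff_Φ_one (t : ℝ) : PowerSeries.coeff 1 (Φ t) = 0 := by simp [Φ, PowerSeries.coeff_mk]

lemma coeff_Φ_add (t : ℝ) (u : ℕ) : PowerSeries.coeff (u + 2) (Φ t) = t * cat2 u := by
  simp [Φ, PowerSeries.coeff_mk]

/-- the value of `V` as a function of the numbers of points -/
def vv (t : ℝ) (q L : ℕ) : ℝ := ∑ p ∈ HasAntidiagonal.antidiagonal L, cat2 (q + p.1) * gg (Φ t) p.2 (p.1 + 1)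

lemma vv_zero (t : ℝ) (q : ℕ) : vv t q 0 = cat2 q := by
  simp [vv, gg, coeff_Φ_zero]

lemma gg_Φ_succ_zero (t : ℝ) (r : ℕ) : gg (Φ t) 0 (r + 1) = gg (Φ t) 0 r := by
  rw [gg_succ]
  simp [coeff_Φ_zero]

lemma gg_Φ_succ_one (t : ℝ) (r : ℕ) : gg (Φ t) 1 (r + 1) = gg (Φ t) 1 r := by
  rw [gg_succ]
  rw [Finset.Nat.sum_antidiagonal_succ]
  simp [coeff_Φ_zero, coeff_Φ_one]

lemma gg_Φ_succ_add (t : ℝ) (r k : ℕ) : gg (Φ t) (k + 2) (r + 1) = gg (Φ t) (k + 2) r +
    t * ∑ p ∈ HasAntidiagonal.antidiagonal k, ∑ s ∈ HasAntidiagonal.antidiagonal p.2,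
      cat2 p.1 * gg (Φ t) s.1 (p.1 + 1) * gg (Φ t) s.2 (r + 1) := by
  rw [gg_succ]
  rw [Finset.Nat.sum_antidiagonal_succ, Finset.Nat.sum_antidiagonal_succ]
  simp only [coeff_Φ_zero, coeff_Φ_one, one_mul, zero_mul, zero_add, add_zero]
  congr 1
  rw [Finset.mul_sum]
  refine Finset.sum_congr rfl fun p _ => ?_
  rw [coeff_Φ_add]
  have e1 : r + (p.1 + 1 + 1) = (p.1 + 1) + (r + 1) := by omega
  rw [e1, gg_add (Φ t) (r + 1) _ p.2 (p.1 + 1) le_rfl, mul_assoc, Finset.mul_sum]
  congr 1
  refine Finset.sum_congr rfl fun s _ => ?_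
  ring

lemma vv_succ (t : ℝ) (q L : ℕ) : vv t q (L + 1) = vv t (q + 1) L +
    t * ∑ j ∈ range L, vv t 0 j * vv t q (L - 1 - j) := by
  have h1 : ∀ p ∈ HasAntidiagonal.antidiagonal (L + 1), cat2 (q + p.1) * gg (Φ t) p.2 (p.1 + 1) =
      cat2 (q + p.1) * gg (Φ t) p.2 p.1 + cat2 (q + p.1) *
        (gg (Φ t) p.2 (p.1 + 1) - gg (Φ t) p.2 p.1) := fun p _ => by ring
  have h2 : vv t q (L + 1) = ∑ p ∈ HasAntidiagonal.antidiagonal (L + 1), cat2 (q + p.1) * gg (Φ t) p.2 p.1 +
      ∑ p ∈ HasAntidiagonal.antidiagonal (L + 1), cat2 (q + p.1) *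
        (gg (Φ t) p.2 (p.1 + 1) - gg (Φ t) p.2 p.1) := by
    unfold vv
    rw [Finset.sum_congr rfl h1, Finset.sum_add_distrib]
  rw [h2]
  congr 1
  · rw [Finset.Nat.sum_antidiagonal_succ]
    simp only [gg_zero_right, Nat.add_eq_zero_iff, one_ne_zero, and_false, if_false, mul_zero,
      zero_add]
    unfold vv
    refine Finset.sum_congr rfl fun p _ => ?_
    congr 2
    omega
  · rcases L with _ | L
    · rw [Finset.Nat.sum_antidiagonal_succ']
      simp [gg_Φ_succ_zero, gg_Φ_succ_one]
    · rw [Finset.Nat.sum_antidiagonal_succ', Finset.Nat.sum_antidiagonal_succ']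
      simp only [gg_Φ_succ_zero, zero_add, gg_Φ_succ_one, sub_self, mul_zero]
      have h3 : ∀ p ∈ HasAntidiagonal.antidiagonal L, cat2 (q + p.1) *
          (gg (Φ t) (p.2 + 1 + 1) (p.1 + 1) - gg (Φ t) (p.2 + 1 + 1) p.1) =
          t * ∑ r ∈ HasAntidiagonal.antidiagonal p.2, vv t 0 r.1 * (cat2 (q + p.1) * gg (Φ t) r.2 (p.1 + 1)) := by
        intro p _
        have e1 : p.2 + 1 + 1 = p.2 + 2 := rfl
        rw [e1, gg_Φ_succ_add, add_sub_cancel_left,
          sum_assoc (fun u v w => cat2 u * gg (Φ t) v (u + 1) * gg (Φ t) w (p.1 + 1))]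
        have h4 : ∀ r ∈ HasAntidiagonal.antidiagonal p.2, vv t 0 r.1 * (cat2 (q + p.1) * gg (Φ t) r.2 (p.1 + 1)) =
            cat2 (q + p.1) * ∑ s ∈ HasAntidiagonal.antidiagonal r.1,
              cat2 s.1 * gg (Φ t) s.2 (s.1 + 1) * gg (Φ t) r.2 (p.1 + 1) := by
          intro r _
          unfold vv
          rw [Finset.sum_mul, Finset.mul_sum]
          refine Finset.sum_congr rfl fun s _ => ?_
          rw [zero_add]
          ring
        rw [Finset.sum_congr rfl h4, ← Finset.mul_sum]
        ring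
      rw [Finset.sum_congr rfl h3, ← Finset.mul_sum,
        sum_comm3 (fun u v w => vv t 0 v * (cat2 (q + u) * gg (Φ t) w (u + 1)))]
      congr 1
      rw [Finset.Nat.sum_antidiagonal_eq_sum_range_succ_mk]
      simp only [Nat.succ_eq_add_one, Nat.add_sub_cancel]
      refine Finset.sum_congr rfl fun j _ => ?_
      unfold vv
      rw [Finset.mul_sum]

/-! ### The combinatorial side -/

lemma sum_rank (F : ℕ → ℝ) (R : Finset ℕ) :
    ∑ b ∈ R, F (R.filter (fun x => x < b)).card = ∑ j ∈ range R.card, F j := by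
  induction R using Finset.induction_on_max with
  | empty => simp
  | insert a s hs ih =>
    have ha : a ∉ s := fun h => lt_irrefl a (hs a h)
    rw [Finset.sum_insert ha, Finset.card_insert_of_notMem ha, Finset.sum_range_succ, ← ih,
      add_comm]
    congr 1
    · refine Finset.sum_congr rfl fun b hb => ?_
      congr 2
      ext x
      simp only [Finset.mem_filter, Finset.mem_insert]
      constructor
      · rintro ⟨rfl | h, h2⟩
        · exact absurd (hs b hb) (by omega)
        · exact ⟨h, h2⟩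
      · rintro ⟨h, h2⟩
        exact ⟨Or.inr h, h2⟩
    · congr 2
      ext x
      simp only [Finset.mem_filter, Finset.mem_insert]
      constructor
      · rintro ⟨rfl | h, h2⟩
        · exact absurd h2 (lt_irrefl _)
        · exact h
      · intro h
        exact ⟨Or.inr h, hs x h⟩

lemma V_eq (h1 : S_base) (h2 : S_step) (t : ℝ) (n : ℕ) : ∀ (P : Finset ℕ) (z : ℕ),
    (P.filter (fun x => z ≤ x)).card ≤ n →
    V P z t = vv t (P.filter (fun x => x < z)).card (P.filter (fun x => z ≤ x)).card := by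
  induction n with
  | zero =>
    intro P z h
    have h0 : (P.filter (fun x => z ≤ x)).card = 0 := by omega
    rw [h0, vv_zero]
    rw [Finset.card_eq_zero, Finset.filter_eq_empty_iff] at h0
    have h3 : ∀ x ∈ P, x < z := fun x hx => not_le.1 (h0 hx)
    rw [h1 P z t h3, Finset.filter_true_of_mem h3]
  | succ n ih =>
    intro P z h
    rcases Nat.eq_zero_or_pos (P.filter (fun x => z ≤ x)).card with h0 | h0
    · rw [h0, vv_zero]
      rw [Finset.card_eq_zero, Finset.filter_eq_empty_iff] at h0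
      have h3 : ∀ x ∈ P, x < z := fun x hx => not_le.1 (h0 hx)
      rw [h1 P z t h3, Finset.filter_true_of_mem h3]
    · have hne : (P.filter (fun x => z ≤ x)).Nonempty := Finset.card_pos.1 h0
      obtain ⟨z₀, hz₀⟩ : ∃ z₀, z₀ = (P.filter (fun x => z ≤ x)).min' hne := ⟨_, rfl⟩
      have hm := Finset.min'_mem _ hne
      rw [← hz₀, Finset.mem_filter] at hm
      have hmin : ∀ x ∈ P, z ≤ x → z₀ ≤ x := by
        intro x hx hzx
        rw [hz₀]
        exact Finset.min'_le _ _ (Finset.mem_filter.2 ⟨hx, hzx⟩)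
      obtain ⟨R, hR⟩ : ∃ R, R = P.filter (fun x => z₀ < x) := ⟨_, rfl⟩
      obtain ⟨Q, hQ⟩ : ∃ Q, Q = P.filter (fun x => x < z) := ⟨_, rfl⟩
      have hQ' : P.filter (fun x => x < z₀) = Q := by
        rw [hQ]
        ext x
        simp only [Finset.mem_filter]
        constructor
        · rintro ⟨hx, hx2⟩
          refine ⟨hx, ?_⟩
          by_contra hc
          have := hmin x hx (not_lt.1 hc)
          omega
        · rintro ⟨hx, hx2⟩
          exact ⟨hx, by omega⟩
      -- the marked points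
      have hL : P.filter (fun x => z ≤ x) = insert z₀ R := by
        rw [hR]
        ext x
        simp only [Finset.mem_filter, Finset.mem_insert]
        constructor
        · rintro ⟨hx, hx2⟩
          have := hmin x hx hx2
          rcases this.eq_or_lt with h3 | h3
          · exact Or.inl h3.symm
          · exact Or.inr ⟨hx, h3⟩
        · rintro (rfl | ⟨hx, hx2⟩)
          · exact hm
          · exact ⟨hx, by omega⟩
      have hz₀R : z₀ ∉ R := by rw [hR]; simp
      have hLc : (P.filter (fun x => z ≤ x)).card = R.card + 1 := by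
        rw [hL, Finset.card_insert_of_notMem hz₀R]
      rw [hLc, vv_succ, h2 P z z₀ t hm.1 hm.2 hmin]
      have hRn : R.card ≤ n := by omega
      congr 1
      · -- first term
        have e1 : P.filter (fun x => z₀ + 1 ≤ x) = R := by
          rw [hR]; rfl
        have e2 : P.filter (fun x => x < z₀ + 1) = insert z₀ Q := by
          rw [← hQ']
          ext x
          simp only [Finset.mem_filter, Finset.mem_insert]
          constructor
          · rintro ⟨hx, hx2⟩
            rcases Nat.lt_succ_iff_lt_or_eq.1 hx2 with h3 | h3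
            · exact Or.inr ⟨hx, h3⟩
            · exact Or.inl h3
          · rintro (rfl | ⟨hx, hx2⟩)
            · exact ⟨hm.1, by omega⟩
            · exact ⟨hx, by omega⟩
        have hz₀Q : z₀ ∉ Q := by rw [← hQ']; simp
        rw [ih P (z₀ + 1) (by rw [e1]; exact hRn), e1, e2, Finset.card_insert_of_notMem hz₀Q, hQ]
      · congr 1
        rw [← hR, ← hQ]
        rw [← sum_rank (fun j => vv t 0 j * vv t Q.card (R.card - 1 - j)) R]
        refine Finset.sum_congr rfl fun b hb => ?_
        have hb' := hb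
        rw [hR, Finset.mem_filter] at hb'
        have e3 : (P.filter (fun x => z₀ < x ∧ x < b)) = R.filter (fun x => x < b) := by
          rw [hR, Finset.filter_filter]
        have c3 : (R.filter (fun x => x < b)).card + 1 ≤ R.card := by
          have : (R.filter (fun x => x < b)).card < R.card := by
            apply Finset.card_lt_card
            refine ⟨Finset.filter_subset _ _, fun hc => ?_⟩
            have := hc hb
            rw [Finset.mem_filter] at this
            exact lt_irrefl _ this.2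
          omega
        have e4 : (R.filter (fun x => x < b)).filter (fun x => z₀ ≤ x) =
            R.filter (fun x => x < b) := by
          apply Finset.filter_true_of_mem
          intro x hx
          rw [Finset.mem_filter, hR, Finset.mem_filter] at hx
          omega
        have e5 : (R.filter (fun x => x < b)).filter (fun x => x < z₀) = ∅ := by
          rw [Finset.filter_eq_empty_iff]
          intro x hx
          rw [Finset.mem_filter, hR, Finset.mem_filter] at hx
          omega
        have e6 : (P.filter (fun x => x < z₀ ∨ b < x)).filter (fun x => x < z₀) = Q := by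
          rw [← hQ', Finset.filter_filter]
          ext x
          simp only [Finset.mem_filter]
          constructor
          · rintro ⟨hx, hx2, hx3⟩
            exact ⟨hx, hx3⟩
          · rintro ⟨hx, hx2⟩
            exact ⟨hx, Or.inl hx2, hx2⟩
        have e7 : (P.filter (fun x => x < z₀ ∨ b < x)).filter (fun x => z₀ ≤ x) =
            R.filter (fun x => b < x) := by
          rw [hR, Finset.filter_filter, Finset.filter_filter]
          ext x
          simp only [Finset.mem_filter]
          constructor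
          · rintro ⟨hx, hx2, hx3⟩
            refine ⟨hx, ?_, ?_⟩ <;> omega
          · rintro ⟨hx, hx2, hx3⟩
            refine ⟨hx, Or.inr hx3, ?_⟩
            omega
        have c7 : (R.filter (fun x => b < x)).card = R.card - 1 - (R.filter (fun x => x < b)).card := by
          have h5 : R = insert b (R.filter (fun x => x < b) ∪ R.filter (fun x => b < x)) := by
            ext x
            simp only [Finset.mem_insert, Finset.mem_union, Finset.mem_filter]
            constructor
            · intro hx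
              rcases lt_trichotomy x b with h6 | h6 | h6
              · exact Or.inr (Or.inl ⟨hx, h6⟩)
              · exact Or.inl h6
              · exact Or.inr (Or.inr ⟨hx, h6⟩)
            · rintro (rfl | ⟨hx, _⟩ | ⟨hx, _⟩)
              · exact hb
              · exact hx
              · exact hx
          have h6 : b ∉ R.filter (fun x => x < b) ∪ R.filter (fun x => b < x) := by
            simp
          have h7 : Disjoint (R.filter (fun x => x < b)) (R.filter (fun x => b < x)) := by
            rw [Finset.disjoint_filter]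
            intro x _ h8
            omega
          have h8 := Finset.card_insert_of_notMem h6
          rw [← h5, Finset.card_union_of_disjoint h7] at h8
          omega
        rw [e3, ih (R.filter (fun x => x < b)) z₀ (by rw [e4]; omega), e4, e5, Finset.card_empty,
          ih (P.filter (fun x => x < z₀ ∨ b < x)) z₀ (by rw [e7, c7]; omega), e6, e7, c7]

/-! ### The exact formula -/

lemma Φ_eq (t : ℝ) : Φ t = PowerSeries.expand 2 (by norm_num) (1 + PowerSeries.C t * yy) := by
  ext k
  rw [PowerSeries.coeff_expand]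
  unfold Φ
  rw [PowerSeries.coeff_mk]
  have h1 : ∀ j, PowerSeries.coeff j (1 + PowerSeries.C t * yy) =
      (if j = 0 then 1 else 0) + t * (if j = 0 then 0 else (catalan (j - 1) : ℝ) ^ 2) := by
    intro j
    rw [map_add, PowerSeries.coeff_one, PowerSeries.coeff_C_mul]
    unfold yy
    rw [PowerSeries.coeff_mk]
  rcases Nat.even_or_odd' k with ⟨j, rfl | rfl⟩
  · rw [if_pos (Dvd.intro j rfl), Nat.mul_div_cancel_left j (by norm_num), h1]
    rcases j with _ | j
    · simp
    · have e1 : 2 * (j + 1) ≠ 0 := by omega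
      have e2 : 2 * (j + 1) ≠ 1 := by omega
      have e3 : 2 * (j + 1) - 2 = 2 * j := by omega
      rw [if_neg e1, if_neg e2, e3, if_neg (Nat.succ_ne_zero j), if_neg (Nat.succ_ne_zero j)]
      unfold cat2
      rw [if_pos (even_two_mul j), Nat.mul_div_cancel_left j (by norm_num)]
      simp
  · have e1 : 2 * j + 1 ≠ 0 := by omega
    have e4 : ¬ 2 ∣ 2 * j + 1 := by omega
    rw [if_neg e1, if_neg e4]
    rcases j with _ | j
    · simp
    · have e2 : 2 * (j + 1) + 1 ≠ 1 := by omega
      rw [if_neg e2]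
      unfold cat2
      have e5 : ¬ Even (2 * (j + 1) + 1 - 2) := by
        rw [Nat.not_even_iff_odd]
        exact ⟨j, by omega⟩
      rw [if_neg e5, mul_zero]

theorem comb : Pool.Agent.Q294.Md.S_comb := by
  intro h1 h2 n t
  have h3 := V_eq h1 h2 t (2 * n) (Icc 1 (2 * n)) 0 (by simp)
  have e1 : (Icc 1 (2 * n)).filter (fun x => x < 0) = ∅ := by simp
  have e2 : (Icc 1 (2 * n)).filter (fun x => 0 ≤ x) = Icc 1 (2 * n) := by simp
  rw [h3, e1, e2, Finset.card_empty, Nat.card_Icc, Nat.add_sub_cancel]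
  unfold vv
  rw [Finset.Nat.sum_antidiagonal_eq_sum_range_succ_mk]
  simp only [zero_add, Nat.succ_eq_add_one]
  -- only the even terms
  have h4 : ∑ k ∈ range (2 * n + 1), cat2 k * gg (Φ t) (2 * n - k) (k + 1) =
      ∑ m ∈ range (n + 1), cat2 (2 * m) * gg (Φ t) (2 * n - 2 * m) (2 * m + 1) := by
    have h5 : ∑ m ∈ range (n + 1), cat2 (2 * m) * gg (Φ t) (2 * n - 2 * m) (2 * m + 1) =
        ∑ k ∈ (range (n + 1)).map ⟨fun m => 2 * m, fun a b h => by simpa using h⟩,
          cat2 k * gg (Φ t) (2 * n - k) (k + 1) := by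
      rw [Finset.sum_map]
      rfl
    rw [h5]
    symm
    apply Finset.sum_subset
    · intro k hk
      simp only [Finset.mem_map, Finset.mem_range, Function.Embedding.coeFn_mk] at hk ⊢
      obtain ⟨m, hm, rfl⟩ := hk
      omega
    · intro k hk hk2
      have h6 : ¬ Even k := by
        rintro ⟨m, hm⟩
        apply hk2
        simp only [Finset.mem_map, Finset.mem_range, Function.Embedding.coeFn_mk] at hk ⊢
        exact ⟨m, by omega, by omega⟩
      unfold cat2
      rw [if_neg h6, zero_mul]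
  rw [h4]
  refine Finset.sum_congr rfl fun m hm => ?_
  rw [Finset.mem_range] at hm
  have h5 : cat2 (2 * m) = (catalan m : ℝ) ^ 2 := by
    unfold cat2
    rw [if_pos (even_two_mul m), Nat.mul_div_cancel_left m (by norm_num)]
  rw [h5]
  unfold gg
  rw [if_neg (Nat.succ_ne_zero _)]
  have e3 : 2 * m + 1 + (2 * n - 2 * m) = 2 * n + 1 := by omega
  have e4 : 2 * n - 2 * m = 2 * (n - m) := by omega
  rw [e3, Φ_eq, ← map_pow, e4, PowerSeries.coeff_expand, if_pos (Dvd.intro _ rfl),
    Nat.mul_div_cancel_left _ (by norm_num)]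
  rw [mul_assoc]
  congr 2
  have e5 : ((2 * (n - m) : ℕ) : ℝ) = 2 * n - 2 * m := by
    rw [Nat.cast_mul, Nat.cast_sub (by omega)]
    push_cast
    ring
  rw [e5]
  push_cast
  congr 1
  ring

end

end Pool.Agent.Q146.Md
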